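import Pool.Agent.Work.MP_10bfef_nt_recip.Runs

/-!
# Van Eck's sequence: the potential inequality inside a finite set of values
-/

namespace Pool.Agent.Work.MP_10bfef_nt_recip

open N913ddd84 Finset Pool.Agent.Work.MP_10bfef_nt_helper63 Filter Topology

/-- The positions before `N` followed within less than `R` steps by a term in `A`. -/
def near (A : Finset ℕ) (R N : ℕ) : Finset ℕ :=
  (range N).filter (fun t => ∃ i < R, t + i < N ∧ a (t + i) ∈ A)

lemma near_card (A : Finset ℕ) (R N : ℕ) :
    (near A R N).card ≤ occ A N + R * (exits A N + 1) := by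
  classical
  have h1 : near A R N ⊆ (range N).filter (fun n => a n ∈ A) ∪
      (near A R N).filter (fun t => a t ∉ A) := by
    intro t ht
    rw [mem_union, mem_filter, mem_filter]
    by_cases h : a t ∈ A
    · left
      unfold near at ht
      rw [mem_filter] at ht
      exact ⟨ht.1, h⟩
    · exact Or.inr ⟨ht, h⟩
  have h2 := (Finset.card_le_card h1).trans (Finset.card_union_le _ _)
  have hex : ∀ t ∈ (near A R N).filter (fun t => a t ∉ A),
      ∃ j, j < R ∧ t + j + 1 < N + 1 ∧ a (t + j) ∉ A ∧ a (t + j + 1) ∈ A := by
    intro t ht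
    rw [mem_filter] at ht
    obtain ⟨ht1, ht2⟩ := ht
    unfold near at ht1
    rw [mem_filter] at ht1
    have hq := ht1.2
    have hmin := Nat.find_spec hq
    have hmin2 : ∀ i, i < Nat.find hq → ¬ (i < R ∧ t + i < N ∧ a (t + i) ∈ A) :=
      fun i hi => Nat.find_min hq hi
    generalize Nat.find hq = i at hmin hmin2
    obtain ⟨h3, h4, h5⟩ := hmin
    rcases i with _ | i
    · exact absurd h5 ht2
    · refine ⟨i, by omega, by omega, ?_, h5⟩
      intro h6
      exact hmin2 i (by omega) ⟨by omega, by omega, h6⟩
  choose! f hf1 hf2 hf3 hf4 using hex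
  have h3 : ((near A R N).filter (fun t => a t ∉ A)).card ≤ R * entries A N := by
    unfold entries
    apply Finset.card_le_mul_card_image_of_maps_to (f := fun n => n + f n)
    · intro n hn
      rw [mem_filter, Finset.mem_range]
      have := hf2 n hn
      exact ⟨by omega, hf3 n hn, hf4 n hn⟩
    · intro b _
      have h3 : ((near A R N).filter (fun t => a t ∉ A)).filter (fun n => n + f n = b) ⊆
          Ico (b + 1 - R) (b + 1) := by
        intro n hn
        rw [mem_filter] at hn
        have := hf1 n hn.1
        rw [mem_Ico]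
        omega
      have h4 := Finset.card_le_card h3
      rw [Nat.card_Ico] at h4
      omega
  have h4 := Nat.mul_le_mul_left R (entries_le' A N)
  unfold occ
  omega

/-- The truncated gaps of a value `v ∈ A` cover only positions near `A`. -/
lemma gaps_near (A : Finset ℕ) (R N v : ℕ) (hv : v ∈ A) :
    ∑ n ∈ (range N).filter (fun n => a n = v), min (a (n + 1)) R ≤ (near A R N).card := by
  classical
  have h1 : ∀ n, (Ico (n + 1 - min (a (n + 1)) R) (n + 1)).card = min (a (n + 1)) R := by
    intro n
    rw [Nat.card_Ico]
    have := a_le n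
    have h2 := min_le_left (a (n + 1)) R
    omega
  calc ∑ n ∈ (range N).filter (fun n => a n = v), min (a (n + 1)) R
      = ∑ n ∈ (range N).filter (fun n => a n = v),
          (Ico (n + 1 - min (a (n + 1)) R) (n + 1)).card :=
        Finset.sum_congr rfl (fun n _ => (h1 n).symm)
    _ = (((range N).filter (fun n => a n = v)).biUnion
          (fun n => Ico (n + 1 - min (a (n + 1)) R) (n + 1))).card := by
        rw [Finset.card_biUnion]
        intro x hx y hy hxy
        rw [Finset.mem_coe, mem_filter] at hx hy
        have key : ∀ x y : ℕ, a x = v → a y = v → x < y →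
            Disjoint (Ico (x + 1 - min (a (x + 1)) R) (x + 1))
              (Ico (y + 1 - min (a (y + 1)) R) (y + 1)) := by
          intro x y h3 h4 h5
          have h6 := gap_le h5 (h3.trans h4.symm)
          have h7 := min_le_left (a (y + 1)) R
          rw [Finset.disjoint_left]
          intro z hz1 hz2
          rw [mem_Ico] at hz1 hz2
          omega
        rcases lt_or_gt_of_ne hxy with h | h
        · exact key x y hx.2 hy.2 h
        · exact (key y x hy.2 hx.2 h).symm
    _ ≤ (near A R N).card := by
        apply Finset.card_le_card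
        intro t ht
        rw [Finset.mem_biUnion] at ht
        obtain ⟨n, hn, ht⟩ := ht
        rw [mem_filter, Finset.mem_range] at hn
        rw [mem_Ico] at ht
        unfold near
        rw [mem_filter, Finset.mem_range]
        have := min_le_right (a (n + 1)) R
        refine ⟨by omega, n - t, by omega, by omega, ?_⟩
        rw [show t + (n - t) = n by omega, hn.2]
        exact hv

lemma F_mono {s t : ℕ} (h : s ≤ t) : F 1 s ≤ F 1 t := by
  unfold F
  apply Real.log_le_log
  · exact lt_of_lt_of_le one_pos (le_max_left _ _)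
  · apply max_le_max le_rfl
    have : (s : ℝ) ≤ t := by exact_mod_cast h
    have h2 := Real.exp_pos 1
    rw [div_one, div_one]
    exact mul_le_mul_of_nonneg_left this h2.le

/-- The main inequality inside a finite set `A` of positive values. -/
theorem core (A : Finset ℕ) (hA : 0 ∉ A) (R N : ℕ) (hR : 1 ≤ R) :
    (occ (A.filter (· < R)) N : ℝ) ≤
      (∑ v ∈ A.filter (· < R), (1 : ℝ) / v) * (occ A N + R * (exits A N + 1)) +
        (1 + Real.log R) * (exits A N + 1) := by
  classical
  set B := A.filter (· < R) with hB
  set G : ℕ → ℝ := fun t => F 1 (min t R) with hG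
  have hR' : (1 : ℝ) ≤ R := by exact_mod_cast hR
  have hGmax : ∀ t, G t ≤ 1 + Real.log R := by
    intro t
    have h1 : G t ≤ F 1 R := F_mono (min_le_right _ _)
    rw [F_pos one_pos hR', div_one] at h1
    exact h1
  have hG0 : ∀ t, 0 ≤ G t := fun t => F_nonneg _ _
  have hlR : 0 ≤ Real.log R := Real.log_nonneg hR'
  -- the lower bound
  have hlow : -((1 + Real.log R) * entries A N) ≤
      ∑ n ∈ range N, (if a n ∈ A then G (a (n + 1)) - G (a n) else 0) := by
    have h1 : ∑ n ∈ range N, ((if a (n + 1) ∈ A then G (a (n + 1)) else 0) -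
        (if a n ∈ A then G (a n) else 0)) = (if a N ∈ A then G (a N) else 0) -
        (if a 0 ∈ A then G (a 0) else 0) :=
      Finset.sum_range_sub (fun n => if a n ∈ A then G (a n) else 0) N
    have h2 : (if a 0 ∈ A then G (a 0) else 0) = 0 := by
      have h0 : a 0 = 0 := rfl
      rw [h0, if_neg hA]
    have h3 : (0 : ℝ) ≤ (if a N ∈ A then G (a N) else 0) := by
      split_ifs
      · exact hG0 _
      · exact le_rfl
    have h4 : ((1 + Real.log R) * entries A N : ℝ) =
        ∑ n ∈ range N, (if a n ∉ A ∧ a (n + 1) ∈ A then (1 + Real.log R) else 0) := by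
      rw [← Finset.sum_filter, Finset.sum_const, nsmul_eq_mul, mul_comm]
      rfl
    rw [h4]
    have h5 : ∑ n ∈ range N, ((if a (n + 1) ∈ A then G (a (n + 1)) else 0) -
        (if a n ∈ A then G (a n) else 0)) ≤
        ∑ n ∈ range N, ((if a n ∈ A then G (a (n + 1)) - G (a n) else 0) +
          (if a n ∉ A ∧ a (n + 1) ∈ A then (1 + Real.log R) else 0)) := by
      apply Finset.sum_le_sum
      intro n _
      have h6 := hGmax (a (n + 1))
      have h7 := hG0 (a (n + 1))
      by_cases h8 : a n ∈ A <;> by_cases h9 : a (n + 1) ∈ A <;> simp [h8, h9] <;> linarith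
    rw [h1, h2, Finset.sum_add_distrib] at h5
    linarith
  -- the upper bound
  have hup : ∑ n ∈ range N, (if a n ∈ A then G (a (n + 1)) - G (a n) else 0) ≤
      ∑ n ∈ range N, (if a n ∈ B then (min (a (n + 1)) R : ℕ) * (1 / (a n : ℝ)) - 1 else 0) := by
    apply Finset.sum_le_sum
    intro n _
    by_cases h8 : a n ∈ A
    · rw [if_pos h8]
      by_cases h9 : a n < R
      · have h10 : a n ∈ B := by
          rw [hB, mem_filter]
          exact ⟨h8, h9⟩
        rw [if_pos h10]
        have h11 : (1 : ℝ) ≤ a n := by
          have : a n ≠ 0 := fun h => hA (h ▸ h8)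
          exact_mod_cast Nat.one_le_iff_ne_zero.mpr this
        have h12 := pot_ineq (X := 1) one_pos (min (a (n + 1)) R) (a n)
        rw [min_eq_left (F_ge one_pos h11), max_eq_left h11, div_eq_mul_one_div] at h12
        have h13 : G (a n) = F 1 (a n) := by
          rw [hG]
          show F 1 (min (a n) R) = F 1 (a n)
          rw [min_eq_left h9.le]
        rw [h13]
        show F 1 (min (a (n + 1)) R) - F 1 (a n) ≤ _
        linarith
      · have h10 : a n ∉ B := by
          rw [hB, mem_filter]
          exact fun h => h9 h.2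
        rw [if_neg h10]
        have h11 : G (a (n + 1)) ≤ G (a n) := by
          show F 1 (min (a (n + 1)) R) ≤ F 1 (min (a n) R)
          apply F_mono
          rw [min_eq_right (by omega : R ≤ a n)]
          exact min_le_right _ _
        linarith
    · rw [if_neg h8]
      have h10 : a n ∉ B := by
        rw [hB, mem_filter]
        exact fun h => h8 h.1
      rw [if_neg h10]
  have hsum : ∑ n ∈ range N, (if a n ∈ B then (min (a (n + 1)) R : ℕ) * (1 / (a n : ℝ)) - 1 else 0)
      = (∑ v ∈ B, (∑ n ∈ (range N).filter (fun n => a n = v), (min (a (n + 1)) R : ℕ) : ℕ) *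
          (1 / (v : ℝ))) - occ B N := by
    rw [← Finset.sum_filter, Finset.sum_sub_distrib]
    congr 1
    · rw [← Finset.sum_fiberwise_of_maps_to (s := (range N).filter (fun n => a n ∈ B)) (t := B)
        (g := a) (fun n hn => (mem_filter.mp hn).2)]
      apply Finset.sum_congr rfl
      intro v hv
      push_cast
      rw [Finset.sum_mul]
      have h1 : ((range N).filter (fun n => a n ∈ B)).filter (fun n => a n = v) =
          (range N).filter (fun n => a n = v) := by
        ext n
        simp only [mem_filter]
        constructor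
        · rintro ⟨⟨h1, _⟩, h2⟩
          exact ⟨h1, h2⟩
        · rintro ⟨h1, h2⟩
          exact ⟨⟨h1, by rw [h2]; exact hv⟩, h2⟩
      rw [h1]
      apply Finset.sum_congr rfl
      intro n hn
      rw [mem_filter] at hn
      rw [hn.2]
    · rw [Finset.sum_const, nsmul_eq_mul, mul_one]
      rfl
  have hT : ∑ v ∈ B, (∑ n ∈ (range N).filter (fun n => a n = v), (min (a (n + 1)) R : ℕ) : ℕ) *
          (1 / (v : ℝ)) ≤ (∑ v ∈ B, (1 : ℝ) / v) * (near A R N).card := by
    rw [Finset.sum_mul]
    apply Finset.sum_le_sum
    intro v hv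
    rw [hB, mem_filter] at hv
    rw [mul_comm]
    apply mul_le_mul_of_nonneg_left _ (by positivity)
    exact_mod_cast gaps_near A R N v hv.1
  have hnear : ((near A R N).card : ℝ) ≤ occ A N + R * (exits A N + 1) := by
    exact_mod_cast near_card A R N
  have hent : (entries A N : ℝ) ≤ exits A N + 1 := by
    exact_mod_cast entries_le' A N
  have hσ : 0 ≤ ∑ v ∈ B, (1 : ℝ) / v := Finset.sum_nonneg (fun v _ => by positivity)
  have h1 := mul_le_mul_of_nonneg_left hnear hσ
  have h2 := mul_le_mul_of_nonneg_left hent (by linarith : 0 ≤ 1 + Real.log R)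
  linarith

end Pool.Agent.Work.MP_10bfef_nt_recip
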