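import Pool.Agent.Work.MP_10bfef_nt_recip.Core

/-!
# Van Eck's sequence: values of positive upper density
-/

namespace Pool.Agent.Work.MP_10bfef_nt_recip

open N913ddd84 Finset Pool.Agent.Work.MP_10bfef_nt_helper63 Filter Topology

/-- The values of positive upper density. -/
def PosUpper : Set ℕ :=
  {m | ∃ δ : ℝ, 0 < δ ∧ ∀ N₀ : ℕ, ∃ N : ℕ, N₀ ≤ N ∧ δ * N ≤ cnt m N}

lemma small_of_notMem {v : ℕ} (hv : v ∉ PosUpper) (δ : ℝ) (hδ : 0 < δ) :
    ∃ N₀ : ℕ, ∀ N, N₀ ≤ N → (cnt v N : ℝ) ≤ δ * N := by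
  by_contra hc
  push Not at hc
  apply hv
  refine ⟨δ, hδ, fun N₀ => ?_⟩
  obtain ⟨N, h1, h2⟩ := hc N₀
  exact ⟨N, h1, h2.le⟩

lemma zero_notMem : 0 ∉ PosUpper := by
  rintro ⟨δ, hδ, h⟩
  obtain ⟨N₀, hN₀⟩ := zeros_density (δ / 2) (by positivity)
  obtain ⟨N, h1, h2⟩ := h (max N₀ 1)
  have h3 := hN₀ N (by omega)
  have h4 : (0 : ℝ) < N := by
    have : 0 < N := by omega
    exact_mod_cast this
  have : 0 < δ * N := by positivity
  linarith

/-- If all values outside `A` have density zero then there are few exits from `A`. -/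
lemma exits_small (A : Finset ℕ) (hA : ∀ v, v ∉ A → v ∉ PosUpper) (ε : ℝ) (hε : 0 < ε) :
    ∃ N₀ : ℕ, ∀ N, N₀ ≤ N → (exits A N : ℝ) ≤ ε * N := by
  classical
  obtain ⟨Z, hZ⟩ := exists_nat_gt (3 * (A.card : ℝ) / ε)
  have hZ0 : 0 < Z := by
    have : (0 : ℝ) < Z := lt_of_le_of_lt (by positivity) hZ
    exact_mod_cast this
  have hZ' : (0 : ℝ) < Z := by exact_mod_cast hZ0
  have h1 : ∀ v, v ∉ A → ∃ N₀ : ℕ, ∀ N, N₀ ≤ N → (cnt v N : ℝ) ≤ (ε / (3 * (Z + 1))) * N :=
    fun v hv => small_of_notMem (hA v hv) _ (by positivity)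
  choose! f hf using h1
  obtain ⟨N₂, hN₂⟩ := exists_nat_gt (3 * ((Z : ℝ) + 1) / ε)
  refine ⟨max ((range (Z + 1)).sup f) N₂, fun N hN => ?_⟩
  have h2 := exits_le A Z N hZ0
  have hNr : (N₂ : ℝ) ≤ N := by exact_mod_cast (le_max_right _ _).trans hN
  have hN0 : (0 : ℝ) ≤ N := by positivity
  have h3 : (A.card : ℝ) * N / Z ≤ ε / 3 * N := by
    rw [div_le_iff₀ hZ']
    rw [div_lt_iff₀ hε] at hZ
    nlinarith
  have h4 : ((∑ v ∈ (range (Z + 1)).filter (fun v => v ∉ A), (cnt v N + 1) : ℕ) : ℝ) ≤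
      ε / 3 * N + (Z + 1) := by
    push_cast
    rw [Finset.sum_add_distrib]
    have h5 : ∑ v ∈ (range (Z + 1)).filter (fun v => v ∉ A), (cnt v N : ℝ) ≤
        ∑ v ∈ (range (Z + 1)).filter (fun v => v ∉ A), (ε / (3 * (Z + 1))) * N := by
      apply Finset.sum_le_sum
      intro v hv
      rw [mem_filter] at hv
      exact hf v hv.2 N ((Finset.le_sup hv.1).trans ((le_max_left _ _).trans hN))
    have h6 : (((range (Z + 1)).filter (fun v => v ∉ A)).card : ℝ) ≤ Z + 1 := by
      have := Finset.card_filter_le (range (Z + 1)) (fun v => v ∉ A)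
      rw [Finset.card_range] at this
      exact_mod_cast this
    rw [Finset.sum_const, nsmul_eq_mul] at h5
    rw [Finset.sum_const, nsmul_eq_mul, mul_one]
    have h7 : (((range (Z + 1)).filter (fun v => v ∉ A)).card : ℝ) * (ε / (3 * (Z + 1)) * N) ≤
        (Z + 1) * (ε / (3 * (Z + 1)) * N) := mul_le_mul_of_nonneg_right h6 (by positivity)
    have h8 : ((Z : ℝ) + 1) * (ε / (3 * (Z + 1)) * N) = ε / 3 * N := by
      field_simp
    linarith
  have h5 : (Z : ℝ) + 1 ≤ ε / 3 * N := by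
    rw [div_lt_iff₀ hε] at hN₂
    nlinarith
  linarith

/-- The set of values of positive upper density is empty or infinite. -/
theorem empty_or_infinite : PosUpper = ∅ ∨ PosUpper.Infinite := by
  classical
  by_contra hc
  push Not at hc
  obtain ⟨hne, hfin⟩ := hc
  obtain ⟨m, hm⟩ := hne
  set A := hfin.toFinset with hAdef
  have hA : ∀ v, v ∉ A → v ∉ PosUpper := by
    intro v hv h
    exact hv (hfin.mem_toFinset.mpr h)
  have hmA : m ∈ A := hfin.mem_toFinset.mpr hm
  obtain ⟨δ, hδ, h⟩ := hm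
  set L := maxLen A.card + 1 with hL
  have hLpos : (0 : ℝ) < L := by
    have : 0 < L := by omega
    exact_mod_cast this
  obtain ⟨N₀, hN₀⟩ := exits_small A hA (δ / (4 * L)) (by positivity)
  obtain ⟨N, h1, h2⟩ := h (max N₀ (L + 1))
  have h3 := hN₀ (N + L) (by omega)
  have h4 := occ_le_exits A N
  rw [← hL] at h4
  have h5 : cnt m N ≤ occ A N := by
    rw [occ_eq]
    exact Finset.single_le_sum (f := fun v => cnt v N) (fun _ _ => Nat.zero_le _) hmA
  have h6 : (cnt m N : ℝ) ≤ L * exits A (N + L) := by exact_mod_cast h5.trans h4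
  have h7 : (L : ℝ) * exits A (N + L) ≤ L * (δ / (4 * L) * ((N + L : ℕ) : ℝ)) :=
    mul_le_mul_of_nonneg_left h3 hLpos.le
  have h8 : (L : ℝ) * (δ / (4 * L) * ((N + L : ℕ) : ℝ)) = δ / 4 * (N + L) := by
    push_cast
    field_simp
  have h9 : (L : ℝ) ≤ N := by
    have : L ≤ N := by omega
    exact_mod_cast this
  have h10 : (0 : ℝ) < N := by linarith
  nlinarith

/-- If every value has density zero then the reciprocals of the values have infinite sum. -/
theorem not_summable (hP : PosUpper = ∅) :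
    ¬ Summable (fun v : Set.range a => (1 : ℝ) / ((v : ℕ) : ℝ)) := by
  classical
  intro hs0
  have hs : Summable ((Set.range a).indicator (fun v : ℕ => (1 : ℝ) / (v : ℝ))) :=
    summable_subtype_iff_indicator.mp hs0
  obtain ⟨A, hA⟩ := (summable_iff_vanishing_norm.mp hs) (1 / 4) (by norm_num)
  obtain ⟨X, hX⟩ := exists_nat_gt (4 * ((A.card : ℝ) + 1))
  have hX0 : (0 : ℝ) < X := lt_of_le_of_lt (by positivity) hX
  -- the sum over the values among the first `N` terms
  have hsum : ∀ N : ℕ, ∑ v ∈ (Ico 0 N).image a, 1 / max (v : ℝ) X ≤ 1 / 2 := by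
    intro N
    set V := (Ico 0 N).image a with hV
    have h2 : ∑ v ∈ V, 1 / max (v : ℝ) X = ∑ v ∈ V.filter (fun v => v ∈ A), 1 / max (v : ℝ) X +
        ∑ v ∈ V.filter (fun v => ¬ v ∈ A), 1 / max (v : ℝ) X :=
      (Finset.sum_filter_add_sum_filter_not V _ _).symm
    have h3 : ∑ v ∈ V.filter (fun v => v ∈ A), 1 / max (v : ℝ) X ≤ ∑ v ∈ A, 1 / (X : ℝ) := by
      refine (Finset.sum_le_sum (g := fun _ => 1 / (X : ℝ)) (fun v _ => ?_)).trans
        (Finset.sum_le_sum_of_subset_of_nonneg ?_ (fun v _ _ => by positivity))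
      · exact one_div_le_one_div_of_le hX0 (le_max_right _ _)
      · intro v hv
        exact (mem_filter.mp hv).2
    have h4 : ∑ v ∈ V.filter (fun v => ¬ v ∈ A), 1 / max (v : ℝ) X ≤
        ∑ v ∈ V.filter (fun v => ¬ v ∈ A),
          ((Set.range a).indicator (fun v : ℕ => (1 : ℝ) / (v : ℝ)) v +
            (if v = 0 then 1 / (X : ℝ) else 0)) := by
      apply Finset.sum_le_sum
      intro v hv
      rw [mem_filter, hV, Finset.mem_image] at hv
      obtain ⟨⟨n, _, hn⟩, _⟩ := hv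
      have hr : v ∈ Set.range a := ⟨n, hn⟩
      rw [Set.indicator_of_mem hr]
      by_cases h5 : v = 0
      · rw [if_pos h5, h5]
        have : max ((0 : ℕ) : ℝ) (X : ℝ) = X := max_eq_right (by push_cast; exact hX0.le)
        rw [this]
        simp
      · rw [if_neg h5, add_zero]
        have h6 : (0 : ℝ) < v := by exact_mod_cast Nat.pos_of_ne_zero h5
        exact one_div_le_one_div_of_le h6 (le_max_left _ _)
    rw [Finset.sum_add_distrib] at h4
    have h5 : ∑ v ∈ V.filter (fun v => ¬ v ∈ A), (if v = 0 then 1 / (X : ℝ) else 0) ≤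
        1 / (X : ℝ) := by
      rw [Finset.sum_ite_eq']
      split_ifs
      · exact le_rfl
      · positivity
    have h6 : ∑ v ∈ V.filter (fun v => ¬ v ∈ A),
        (Set.range a).indicator (fun v : ℕ => (1 : ℝ) / (v : ℝ)) v ≤ 1 / 4 := by
      have h7 := hA (V.filter (fun v => ¬ v ∈ A)) (by
        rw [Finset.disjoint_left]
        intro v hv
        exact (mem_filter.mp hv).2)
      rw [Real.norm_eq_abs] at h7
      exact (le_abs_self _).trans h7.le
    rw [Finset.sum_const, nsmul_eq_mul] at h3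
    have h8 : (A.card : ℝ) * (1 / X) + 1 / X ≤ 1 / 4 := by
      rw [mul_one_div, ← add_div, div_le_iff₀ hX0]
      linarith
    linarith
  -- the small values have density zero
  have hsmall : ∀ v : ℕ, ∃ N₀ : ℕ, ∀ N, N₀ ≤ N → (cnt v N : ℝ) ≤ (1 / (4 * (X + 1))) * N := by
    intro v
    exact small_of_notMem (by rw [hP]; exact Set.notMem_empty v) _ (by positivity)
  choose f hf using hsmall
  set N := max ((range X).sup f) 1 with hN
  have hNpos : (0 : ℝ) < N := by
    have : 0 < N := by omega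
    exact_mod_cast this
  have h1 := large_terms (X := (X : ℝ)) hX0 0 N (Nat.zero_le _)
  have h2 : F X (a 0) = 0 := F_zero _
  rw [h2, add_zero] at h1
  have h3 : (N : ℝ) * ∑ v ∈ (Ico 0 N).image a, 1 / max (v : ℝ) X ≤ N * (1 / 2) :=
    mul_le_mul_of_nonneg_left (hsum N) hNpos.le
  have h4 : N ≤ occ (range X) N + ((Ico 0 N).filter (fun n => (X : ℝ) ≤ a n)).card := by
    have h5 : range N ⊆ (range N).filter (fun n => a n ∈ range X) ∪
        (Ico 0 N).filter (fun n => (X : ℝ) ≤ a n) := by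
      intro n hn
      rw [mem_union, mem_filter, mem_filter, mem_Ico, Finset.mem_range (m := a n)]
      rcases Nat.lt_or_ge (a n) X with h | h
      · exact Or.inl ⟨hn, h⟩
      · exact Or.inr ⟨⟨Nat.zero_le _, Finset.mem_range.mp hn⟩, by exact_mod_cast h⟩
    have h6 := (Finset.card_le_card h5).trans (Finset.card_union_le _ _)
    rw [Finset.card_range] at h6
    exact h6
  have h5 : (occ (range X) N : ℝ) ≤ N * (1 / 4) := by
    rw [occ_eq]
    push_cast
    have h6 : ∑ v ∈ range X, (cnt v N : ℝ) ≤ ∑ v ∈ range X, (1 / (4 * ((X : ℝ) + 1))) * N := by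
      apply Finset.sum_le_sum
      intro v hv
      exact hf v N ((Finset.le_sup hv).trans (le_max_left _ _))
    rw [Finset.sum_const, Finset.card_range, nsmul_eq_mul] at h6
    refine h6.trans ?_
    have h7 : (X : ℝ) * (1 / (4 * ((X : ℝ) + 1))) ≤ 1 / 4 := by
      rw [mul_one_div, div_le_div_iff₀ (by positivity) (by norm_num)]
      linarith
    nlinarith
  have h6 : (N : ℝ) ≤ occ (range X) N +
      (((Ico 0 N).filter (fun n => (X : ℝ) ≤ a n)).card : ℝ) := by exact_mod_cast h4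
  linarith

end Pool.Agent.Work.MP_10bfef_nt_recip
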