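import Pool.Agent.Work.MP_10bfef_nt_helper63.Asymp

/-!
# Van Eck's sequence: reciprocal sums of the values (the potential inequality)
-/

namespace Pool.Agent.Work.MP_10bfef_nt_recip

open N913ddd84 Finset Pool.Agent.Work.MP_10bfef_nt_helper63

/-- The potential. -/
noncomputable def F (X : ℝ) (t : ℕ) : ℝ := Real.log (max 1 (Real.exp 1 * t / X))

lemma F_nonneg (X : ℝ) (t : ℕ) : 0 ≤ F X t := Real.log_nonneg (le_max_left _ _)

lemma F_zero (X : ℝ) : F X 0 = 0 := by simp [F]

lemma F_pos {X : ℝ} (hX : 0 < X) {t : ℕ} (ht : X ≤ t) : F X t = 1 + Real.log (t / X) := by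
  have ht' : (0 : ℝ) < t := lt_of_lt_of_le hX ht
  unfold F
  rw [max_eq_right, mul_div_assoc, Real.log_mul (Real.exp_pos 1).ne' (by positivity), Real.log_exp]
  rw [mul_div_assoc]
  have h1 : 1 ≤ (t : ℝ) / X := (one_le_div hX).mpr ht
  have h2 : (1 : ℝ) ≤ Real.exp 1 := by
    have := Real.add_one_le_exp (1 : ℝ)
    linarith
  nlinarith

lemma F_ge {X : ℝ} (hX : 0 < X) {t : ℕ} (ht : X ≤ t) : 1 ≤ F X t := by
  rw [F_pos hX ht]
  have : 0 ≤ Real.log (t / X) := Real.log_nonneg ((one_le_div hX).mpr ht)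
  linarith

lemma F_le {X : ℝ} (hX : 0 < X) {g : ℕ} (hg : 0 < g) (C : ℝ) (hC : 0 ≤ C)
    (h : 1 + Real.log (g / X) ≤ C) : F X g ≤ C := by
  have hg' : (0 : ℝ) < g := by exact_mod_cast hg
  unfold F
  rcases le_total (Real.exp 1 * g / X) 1 with h1 | h1
  · rw [max_eq_left h1]
    simpa using hC
  · rw [max_eq_right h1, mul_div_assoc, Real.log_mul (Real.exp_pos 1).ne' (by positivity),
      Real.log_exp]
    exact h

lemma pot_ineq {X : ℝ} (hX : 0 < X) (g v : ℕ) :
    F X g ≤ F X v - min 1 (F X v) + g / max (v : ℝ) X := by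
  have hm : 0 < max (v : ℝ) X := lt_of_lt_of_le hX (le_max_right _ _)
  have h0 : 0 ≤ F X v - min 1 (F X v) := by
    have := min_le_right 1 (F X v)
    linarith
  have h1 : 0 ≤ (g : ℝ) / max (v : ℝ) X := by positivity
  rcases Nat.eq_zero_or_pos g with rfl | hg
  · rw [F_zero]
    linarith
  · have hg' : (0 : ℝ) < g := by exact_mod_cast hg
    apply F_le hX hg _ (by linarith)
    rcases lt_or_ge (v : ℝ) X with hv | hv
    · rw [max_eq_right hv.le]
      have h2 := Real.log_le_sub_one_of_pos (x := (g : ℝ) / X) (by positivity)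
      linarith
    · rw [max_eq_left hv]
      have hv' : (0 : ℝ) < v := lt_of_lt_of_le hX hv
      have h2 := Real.log_le_sub_one_of_pos (x := (g : ℝ) / v) (by positivity)
      have h3 : Real.log ((g : ℝ) / X) = Real.log ((g : ℝ) / v) + Real.log (v / X) := by
        rw [← Real.log_mul (by positivity) (by positivity)]
        congr 1
        field_simp
      rw [min_eq_left (F_ge hX hv), F_pos hX hv]
      linarith

/-- The gaps that follow the occurrences of `v` in `[M, N)` add up to at most `N`. -/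
lemma gap_total (v M e : ℕ) (he : M ≤ e) :
    (∑ n ∈ (Ico M e).filter (fun n => a n = v), a (n + 1) = 0) ∨
      ∃ l, M ≤ l ∧ l < e ∧ a l = v ∧
        ∑ n ∈ (Ico M e).filter (fun n => a n = v), a (n + 1) ≤ l := by
  induction e, he using Nat.le_induction with
  | base => left; simp
  | succ e he ih =>
    have hIco : Ico M (e + 1) = insert e (Ico M e) := by
      ext x; simp only [mem_Ico, mem_insert]; omega
    rw [hIco, Finset.filter_insert]
    by_cases hv : a e = v
    · rw [if_pos hv, Finset.sum_insert (by simp)]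
      right
      refine ⟨e, he, by omega, hv, ?_⟩
      rcases ih with h0 | ⟨l, h1, h2, h3, h4⟩
      · rw [h0]
        have := a_le e
        omega
      · have h5 : a (e + 1) ≤ e - l := gap_le h2 (by rw [h3, hv])
        omega
    · rw [if_neg hv]
      rcases ih with h0 | ⟨l, h1, h2, h3, h4⟩
      · left; exact h0
      · right; exact ⟨l, h1, by omega, h3, h4⟩

lemma gap_total_le (v M N : ℕ) :
    ∑ n ∈ (Ico M N).filter (fun n => a n = v), a (n + 1) ≤ N := by
  rcases le_total M N with h | h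
  · rcases gap_total v M N h with h | ⟨l, h1, h2, h3, h4⟩
    · omega
    · omega
  · rw [Finset.Ico_eq_empty (by omega)]
    simp

/-- Weighted sum of the gaps. -/
lemma weighted_gaps (w : ℕ → ℝ) (hw : ∀ v, 0 ≤ w v) (M N : ℕ) :
    ∑ n ∈ Ico M N, (a (n + 1) : ℝ) * w (a n) ≤ N * ∑ v ∈ (Ico M N).image a, w v := by
  classical
  rw [← Finset.sum_fiberwise_of_maps_to (s := Ico M N) (t := (Ico M N).image a) (g := a)
    (fun n hn => Finset.mem_image_of_mem a hn), Finset.mul_sum]
  apply Finset.sum_le_sum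
  intro v _
  have h2 : ∑ n ∈ (Ico M N).filter (fun n => a n = v), (a (n + 1) : ℝ) * w (a n) =
      (∑ n ∈ (Ico M N).filter (fun n => a n = v), (a (n + 1) : ℝ)) * w v := by
    rw [Finset.sum_mul]
    apply Finset.sum_congr rfl
    intro n hn
    rw [Finset.mem_filter] at hn
    rw [hn.2]
  rw [h2]
  apply mul_le_mul_of_nonneg_right _ (hw v)
  exact_mod_cast gap_total_le v M N

lemma telescope (f : ℕ → ℝ) (M N : ℕ) (h : M ≤ N) :
    ∑ n ∈ Ico M N, (f (n + 1) - f n) = f N - f M := Finset.sum_Ico_sub f h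

/-- The main inequality: the number of terms `≥ X` among `a M, ..., a (N-1)`. -/
theorem large_terms {X : ℝ} (hX : 0 < X) (M N : ℕ) (hMN : M ≤ N) :
    (((Ico M N).filter (fun n => X ≤ a n)).card : ℝ) ≤
      N * ∑ v ∈ (Ico M N).image a, 1 / max (v : ℝ) X + F X (a M) := by
  have h1 : ∑ n ∈ Ico M N, (F X (a (n + 1)) - F X (a n)) = F X (a N) - F X (a M) :=
    telescope (fun n => F X (a n)) M N hMN
  have h2 := weighted_gaps (fun v => 1 / max (v : ℝ) X) (fun v => by
    have : 0 < max (v : ℝ) X := lt_of_lt_of_le hX (le_max_right _ _)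
    positivity) M N
  have h3 : ∑ n ∈ Ico M N, (F X (a (n + 1)) - F X (a n)) ≤
      ∑ n ∈ Ico M N, ((a (n + 1) : ℝ) * (1 / max (a n : ℝ) X) - min 1 (F X (a n))) := by
    apply Finset.sum_le_sum
    intro n _
    have := pot_ineq hX (a (n + 1)) (a n)
    rw [div_eq_mul_one_div] at this
    linarith
  rw [h1, Finset.sum_sub_distrib] at h3
  have h4 : (((Ico M N).filter (fun n => X ≤ a n)).card : ℝ) ≤
      ∑ n ∈ Ico M N, min 1 (F X (a n)) := by
    rw [Finset.card_filter]
    push_cast
    apply Finset.sum_le_sum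
    intro n _
    by_cases h : X ≤ a n
    · rw [if_pos h, min_eq_left (F_ge hX h)]
    · rw [if_neg h]
      exact le_min zero_le_one (F_nonneg _ _)
  have h5 := F_nonneg X (a N)
  linarith

end Pool.Agent.Work.MP_10bfef_nt_recip
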