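import Pool.Agent.Work.MP_10bfef_nt_recip.Win

/-!
# Van Eck's sequence: runs of terms in a finite set of values
-/

namespace Pool.Agent.Work.MP_10bfef_nt_recip

open N913ddd84 Finset Pool.Agent.Work.MP_10bfef_nt_helper63 Filter Topology

/-- The number of `n < N` with `a n ∈ A`. -/
def occ (A : Finset ℕ) (N : ℕ) : ℕ := ((range N).filter (fun n => a n ∈ A)).card

/-- The number of `n < N` with `a n ∈ A` and `a (n+1) ∉ A`. -/
def exits (A : Finset ℕ) (N : ℕ) : ℕ :=
  ((range N).filter (fun n => a n ∈ A ∧ a (n + 1) ∉ A)).card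

/-- The number of `n < N` with `a n ∉ A` and `a (n+1) ∈ A`. -/
def entries (A : Finset ℕ) (N : ℕ) : ℕ :=
  ((range N).filter (fun n => a n ∉ A ∧ a (n + 1) ∈ A)).card

lemma occ_eq (A : Finset ℕ) (N : ℕ) : occ A N = ∑ v ∈ A, cnt v N := by
  classical
  unfold occ cnt
  rw [Finset.card_eq_sum_card_fiberwise (f := a) (t := A)]
  · apply Finset.sum_congr rfl
    intro v hv
    congr 1
    ext n
    simp only [mem_filter, mem_range]
    constructor
    · rintro ⟨⟨h1, _⟩, h2⟩
      exact ⟨h1, h2⟩
    · rintro ⟨h1, h2⟩
      exact ⟨⟨h1, by rw [h2]; exact hv⟩, h2⟩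
  · intro n hn
    have := Finset.mem_coe.mp hn
    rw [Finset.mem_filter] at this
    exact this.2

lemma cnt_succ_le (v N : ℕ) : cnt v (N + 1) ≤ cnt v N + 1 := by
  unfold cnt
  rw [Finset.range_add_one, Finset.filter_insert]
  split_ifs
  · exact Finset.card_insert_le _ _
  · omega

lemma cnt_le (v N : ℕ) : cnt v N ≤ N := by
  unfold cnt
  refine (Finset.card_filter_le _ _).trans ?_
  rw [Finset.card_range]

lemma occ_le (A : Finset ℕ) (N : ℕ) : occ A N ≤ N := by
  unfold occ
  refine (Finset.card_filter_le _ _).trans ?_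
  rw [Finset.card_range]

lemma range_filter_succ (p : ℕ → Prop) [DecidablePred p] (N : ℕ) :
    ((range (N + 1)).filter p).card = ((range N).filter p).card + (if p N then 1 else 0) := by
  rw [Finset.range_add_one, Finset.filter_insert]
  split_ifs with h
  · rw [Finset.card_insert_of_notMem (by simp)]
  · omega

/-- Entries and exits alternate. -/
lemma entries_le (A : Finset ℕ) (N : ℕ) :
    entries A N + (if a N ∈ A then 0 else 1) ≤ exits A N + 1 := by
  induction N with
  | zero =>
    simp only [entries, exits, range_zero, filter_empty, card_empty]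
    split_ifs <;> omega
  | succ N ih =>
    unfold entries exits at ih ⊢
    rw [range_filter_succ, range_filter_succ]
    by_cases h1 : a N ∈ A <;> by_cases h2 : a (N + 1) ∈ A <;> simp only [h1, h2] at ih ⊢ <;>
      simp at ih ⊢ <;> omega

lemma entries_le' (A : Finset ℕ) (N : ℕ) : entries A N ≤ exits A N + 1 := by
  have := entries_le A N
  split_ifs at this <;> omega

/-- Few transitions to large values. -/
lemma exits_le (A : Finset ℕ) (Z N : ℕ) (hZ : 0 < Z) :
    (exits A N : ℝ) ≤ (A.card : ℝ) * N / Z +
      (∑ v ∈ (range (Z + 1)).filter (fun v => v ∉ A), (cnt v N + 1) : ℕ) := by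
  classical
  have h1 : exits A N ≤ ((range N).filter (fun n => a n ∈ A ∧ Z < a (n + 1))).card +
      ((range N).filter (fun n => a (n + 1) ∈ (range (Z + 1)).filter (fun v => v ∉ A))).card := by
    unfold exits
    refine le_trans (Finset.card_le_card ?_) (Finset.card_union_le _ _)
    intro n hn
    rw [mem_filter] at hn
    rw [mem_union, mem_filter, mem_filter, mem_filter, Finset.mem_range (m := a (n + 1))]
    by_cases h : Z < a (n + 1)
    · exact Or.inl ⟨hn.1, hn.2.1, h⟩
    · exact Or.inr ⟨hn.1, by omega, hn.2.2⟩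
  have h2 : ((range N).filter (fun n => a (n + 1) ∈ (range (Z + 1)).filter
      (fun v => v ∉ A))).card ≤ occ ((range (Z + 1)).filter (fun v => v ∉ A)) (N + 1) := by
    unfold occ
    refine Finset.card_le_card_of_injOn (· + 1) ?_ (fun x _ y _ h => by simpa using h)
    intro n hn
    have hn' := Finset.mem_coe.mp hn
    rw [mem_filter, Finset.mem_range] at hn'
    rw [Finset.mem_coe, mem_filter, Finset.mem_range]
    exact ⟨Nat.succ_lt_succ hn'.1, hn'.2⟩
  have h3 : occ ((range (Z + 1)).filter (fun v => v ∉ A)) (N + 1) ≤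
      ∑ v ∈ (range (Z + 1)).filter (fun v => v ∉ A), (cnt v N + 1) := by
    rw [occ_eq]
    exact Finset.sum_le_sum (fun v _ => cnt_succ_le v N)
  have h4 : Z * ((range N).filter (fun n => a n ∈ A ∧ Z < a (n + 1))).card ≤ A.card * N := by
    calc Z * ((range N).filter (fun n => a n ∈ A ∧ Z < a (n + 1))).card
        = ∑ n ∈ (range N).filter (fun n => a n ∈ A ∧ Z < a (n + 1)), Z := by
          rw [Finset.sum_const, smul_eq_mul, mul_comm]
      _ ≤ ∑ n ∈ (range N).filter (fun n => a n ∈ A ∧ Z < a (n + 1)), a (n + 1) := by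
          apply Finset.sum_le_sum
          intro n hn
          rw [mem_filter] at hn
          exact hn.2.2.le
      _ ≤ ∑ n ∈ (range N).filter (fun n => a n ∈ A), a (n + 1) := by
          apply Finset.sum_le_sum_of_subset
          intro n hn
          rw [mem_filter] at hn ⊢
          exact ⟨hn.1, hn.2.1⟩
      _ = ∑ v ∈ A, ∑ n ∈ ((range N).filter (fun n => a n ∈ A)).filter (fun n => a n = v),
            a (n + 1) := by
          rw [Finset.sum_fiberwise_of_maps_to (g := a)]
          intro n hn
          rw [mem_filter] at hn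
          exact hn.2
      _ ≤ ∑ v ∈ A, N := by
          apply Finset.sum_le_sum
          intro v _
          refine le_trans (Finset.sum_le_sum_of_subset ?_) (gap_total_le v 0 N)
          intro n hn
          rw [mem_filter, mem_filter, Finset.mem_range] at hn
          rw [mem_filter, mem_Ico]
          exact ⟨⟨by omega, hn.1.1⟩, hn.2⟩
      _ = A.card * N := by rw [Finset.sum_const, smul_eq_mul]
  have hZ' : (0 : ℝ) < Z := by exact_mod_cast hZ
  have h5 : (((range N).filter (fun n => a n ∈ A ∧ Z < a (n + 1))).card : ℝ) ≤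
      (A.card : ℝ) * N / Z := by
    rw [le_div_iff₀ hZ', mul_comm]
    exact_mod_cast h4
  have h6 : (exits A N : ℝ) ≤ (((range N).filter (fun n => a n ∈ A ∧ Z < a (n + 1))).card : ℝ) +
      (∑ v ∈ (range (Z + 1)).filter (fun v => v ∉ A), (cnt v N + 1) : ℕ) := by
    exact_mod_cast h1.trans (Nat.add_le_add_left (h2.trans h3) _)
  linarith

/-- Every run in a finite set is short. -/
lemma occ_le_exits (A : Finset ℕ) (N : ℕ) :
    occ A N ≤ (maxLen A.card + 1) * exits A (N + (maxLen A.card + 1)) := by
  classical
  set L := maxLen A.card + 1 with hL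
  have hex : ∀ n, a n ∈ A → ∃ i, i < L ∧ a (n + i) ∈ A ∧ a (n + i + 1) ∉ A := by
    intro n hn
    by_contra hc
    push Not at hc
    have hall : ∀ i, i ≤ L → a (n + i) ∈ A := by
      intro i
      induction i with
      | zero => intro _; simpa using hn
      | succ i ih =>
        intro hi
        exact hc i (by omega) (ih (by omega))
    have h1 : (Ico n (n + L)).image a ⊆ A := by
      intro v hv
      rw [Finset.mem_image] at hv
      obtain ⟨m, hm, rfl⟩ := hv
      rw [mem_Ico] at hm
      have := hall (m - n) (by omega)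
      rwa [show n + (m - n) = m by omega] at this
    have h2 := window_le _ n (n + L) (Finset.card_le_card h1)
    omega
  choose! f hf1 hf2 hf3 using hex
  unfold occ exits
  apply Finset.card_le_mul_card_image_of_maps_to (f := fun n => n + f n)
  · intro n hn
    rw [mem_filter, Finset.mem_range] at hn
    rw [mem_filter, Finset.mem_range]
    have := hf1 n hn.2
    exact ⟨by omega, hf2 n hn.2, hf3 n hn.2⟩
  · intro b _
    have h3 : ((range N).filter (fun n => a n ∈ A)).filter (fun n => n + f n = b) ⊆
        Ico (b + 1 - L) (b + 1) := by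
      intro n hn
      rw [mem_filter, mem_filter] at hn
      have := hf1 n hn.1.2
      rw [mem_Ico]
      omega
    have h4 := Finset.card_le_card h3
    rw [Nat.card_Ico] at h4
    omega

end Pool.Agent.Work.MP_10bfef_nt_recip
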