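import Pool.Agent.Work.MP_10bfef_nt_recip.Final

/-!
# Van Eck's sequence: the reciprocal sum over the values of positive upper density
-/

namespace Pool.Agent.Work.MP_10bfef_nt_recip

open N913ddd84 Finset Pool.Agent.Work.MP_10bfef_nt_helper63 Filter Topology

/-- If some value has positive upper density, then the reciprocals of the values of positive upper
density have sum at least one. -/
theorem one_le_sum (hne : PosUpper.Nonempty)
    (hs0 : Summable (fun v : PosUpper => (1 : ℝ) / ((v : ℕ) : ℝ))) :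
    1 ≤ ∑' v : PosUpper, (1 : ℝ) / ((v : ℕ) : ℝ) := by
  classical
  obtain ⟨m, hm⟩ := hne
  obtain ⟨δ, hδ, hfreq⟩ := id hm
  set σ := ∑' v : PosUpper, (1 : ℝ) / ((v : ℕ) : ℝ) with hσdef
  have hs : Summable (PosUpper.indicator (fun v : ℕ => (1 : ℝ) / (v : ℝ))) :=
    summable_subtype_iff_indicator.mp hs0
  have hσ' : σ = ∑' v : ℕ, PosUpper.indicator (fun v : ℕ => (1 : ℝ) / (v : ℝ)) v :=
    tsum_subtype PosUpper (fun v : ℕ => (1 : ℝ) / (v : ℝ))
  have hind : ∀ v : ℕ, 0 ≤ PosUpper.indicator (fun v : ℕ => (1 : ℝ) / (v : ℝ)) v := by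
    intro v
    apply Set.indicator_nonneg
    intro x _
    positivity
  have hσ0 : 0 ≤ σ := by
    rw [hσ']
    exact tsum_nonneg hind
  -- an ultrafilter
  have hf : ∃ᶠ N : ℕ in atTop, δ * N ≤ cnt m N := by
    rw [Filter.frequently_atTop]
    intro N₀
    obtain ⟨N, h1, h2⟩ := hfreq N₀
    exact ⟨N, h1, h2⟩
  have hNB : (atTop ⊓ 𝓟 {N : ℕ | δ * N ≤ cnt m N}).NeBot :=
    Filter.frequently_mem_iff_neBot.mp hf
  set U : Ultrafilter ℕ := Ultrafilter.of (atTop ⊓ 𝓟 {N : ℕ | δ * N ≤ cnt m N}) with hU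
  have hUle : (U : Filter ℕ) ≤ atTop ⊓ 𝓟 {N : ℕ | δ * N ≤ cnt m N} := Ultrafilter.of_le _
  have hUtop : (U : Filter ℕ) ≤ atTop := hUle.trans inf_le_left
  have hUm : ∀ᶠ N in (U : Filter ℕ), δ * N ≤ cnt m N :=
    (hUle.trans inf_le_right) (Filter.mem_principal_self _)
  -- densities along the ultrafilter
  have hp : ∀ v : ℕ, ∃ p : ℝ, Tendsto (fun N : ℕ => (cnt v N : ℝ) / N) U (𝓝 p) := by
    intro v
    have h1 : ((U.map (fun N : ℕ => (cnt v N : ℝ) / N)) : Filter ℝ) ≤ 𝓟 (Set.Icc 0 1) := by
      rw [Filter.le_principal_iff]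
      show (fun N : ℕ => (cnt v N : ℝ) / N) ⁻¹' (Set.Icc 0 1) ∈ (U : Filter ℕ)
      refine Filter.mem_of_superset Filter.univ_mem (fun N _ => ?_)
      show (cnt v N : ℝ) / N ∈ Set.Icc (0 : ℝ) 1
      have h2 : (cnt v N : ℝ) ≤ N := by exact_mod_cast cnt_le v N
      constructor
      · positivity
      · exact div_le_one_of_le₀ h2 (by positivity)
    obtain ⟨p, _, hp⟩ := isCompact_Icc.ultrafilter_le_nhds _ h1
    exact ⟨p, hp⟩
  choose p hp using hp
  have hp0 : ∀ v, 0 ≤ p v := fun v => ge_of_tendsto' (hp v) (fun N => by positivity)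
  have hpsum : ∀ A : Finset ℕ, Tendsto (fun N : ℕ => (occ A N : ℝ) / N) U (𝓝 (∑ v ∈ A, p v)) := by
    intro A
    have h1 := tendsto_finsetSum A (fun v _ => hp v)
    refine h1.congr (fun N => ?_)
    rw [occ_eq]
    push_cast
    rw [Finset.sum_div]
  have hple : ∀ A : Finset ℕ, ∑ v ∈ A, p v ≤ 1 := by
    intro A
    refine le_of_tendsto' (hpsum A) (fun N => ?_)
    have h2 : (occ A N : ℝ) ≤ N := by exact_mod_cast occ_le A N
    exact div_le_one_of_le₀ h2 (by positivity)
  have hpS : Summable p := summable_of_sum_le hp0 hple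
  set s := ∑' v, p v with hsdef
  have hple' : ∀ A : Finset ℕ, ∑ v ∈ A, p v ≤ s := fun A =>
    hpS.sum_le_tsum A (fun v _ => hp0 v)
  have hpP : ∀ v, v ∉ PosUpper → p v = 0 := by
    intro v hv
    apply le_antisymm _ (hp0 v)
    apply le_of_forall_pos_le_add
    intro ε hε
    rw [zero_add]
    obtain ⟨N₀, hN₀⟩ := small_of_notMem hv ε hε
    apply le_of_tendsto (hp v)
    have h1 : ∀ᶠ N : ℕ in (U : Filter ℕ), max N₀ 1 ≤ N := hUtop (Filter.eventually_ge_atTop _)
    filter_upwards [h1] with N hN
    have h2 : (0 : ℝ) < N := by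
      have : 0 < N := by omega
      exact_mod_cast this
    rw [div_le_iff₀ h2]
    exact hN₀ N (by omega)
  have hpm : δ ≤ p m := by
    apply ge_of_tendsto (hp m)
    have h1 : ∀ᶠ N : ℕ in (U : Filter ℕ), 1 ≤ N := hUtop (Filter.eventually_ge_atTop _)
    filter_upwards [h1, hUm] with N hN h3
    have h2 : (0 : ℝ) < N := by exact_mod_cast hN
    rw [le_div_iff₀ h2]
    exact h3
  have hspos : 0 < s := by
    have h1 := hple' {m}
    rw [Finset.sum_singleton] at h1
    linarith
  have hinv : Tendsto (fun N : ℕ => (1 : ℝ) / N) U (𝓝 0) :=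
    (tendsto_one_div_atTop_nhds_zero_nat).mono_left hUtop
  -- the main step
  have key : ∀ R Y Z : ℕ, 1 ≤ R → R ≤ Y → 0 < Z →
      ∑ v ∈ range R, p v ≤ σ * s + (σ * R + 1 + Real.log R) *
        ((((range (Y + 1)).filter (· ∈ PosUpper)).card : ℝ) / Z +
          (s - ∑ v ∈ range (Y + 1), p v)) := by
    intro R Y Z hR hRY hZ
    set A := (range (Y + 1)).filter (· ∈ PosUpper) with hA
    have hA0 : 0 ∉ A := by
      intro h
      rw [hA, mem_filter] at h
      exact zero_notMem h.2
    have hAsum : ∑ v ∈ A, p v = ∑ v ∈ range (Y + 1), p v := by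
      rw [hA]
      apply Finset.sum_subset (Finset.filter_subset _ _)
      intro v hv hv2
      apply hpP
      intro h
      exact hv2 (mem_filter.mpr ⟨hv, h⟩)
    have hBsum : ∑ v ∈ A.filter (· < R), p v = ∑ v ∈ range R, p v := by
      apply Finset.sum_subset_zero_on_sdiff
      · intro v hv
        rw [mem_filter] at hv
        exact Finset.mem_range.mpr hv.2
      · intro v hv
        rw [Finset.mem_sdiff, Finset.mem_range, mem_filter, hA, mem_filter, Finset.mem_range] at hv
        apply hpP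
        intro h
        exact hv.2 ⟨⟨by omega, h⟩, hv.1⟩
      · intro v _
        rfl
    have hσB : ∑ v ∈ A.filter (· < R), (1 : ℝ) / v ≤ σ := by
      rw [hσ']
      refine le_trans (le_of_eq ?_) (hs.sum_le_tsum (A.filter (· < R)) (fun v _ => hind v))
      apply Finset.sum_congr rfl
      intro v hv
      rw [mem_filter, hA, mem_filter] at hv
      rw [Set.indicator_of_mem hv.1.2]
    have hlR : 0 ≤ Real.log R := Real.log_natCast_nonneg R
    have hZ' : (0 : ℝ) < Z := by exact_mod_cast hZ
    -- the finite inequality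
    have hfin : ∀ N : ℕ, (occ (A.filter (· < R)) N : ℝ) / N ≤
        σ * ((occ A N : ℝ) / N) + (σ * R + 1 + Real.log R) *
          ((A.card : ℝ) / Z + ∑ v ∈ (range (Z + 1)).filter (fun v => v ∉ A),
            ((cnt v N : ℝ) / N + 1 / N) + 1 / N) := by
      intro N
      rcases Nat.eq_zero_or_pos N with rfl | hN
      · simp only [Nat.cast_zero, div_zero, mul_zero, zero_add, add_zero, Finset.sum_const_zero]
        positivity
      · have hN' : (0 : ℝ) < N := by exact_mod_cast hN
        have h1 := core A hA0 R N hR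
        have h2 := exits_le A Z N hZ
        have hE0 : (0 : ℝ) ≤ exits A N := by positivity
        have hO0 : (0 : ℝ) ≤ occ A N := by positivity
        have h3 : (∑ v ∈ A.filter (· < R), (1 : ℝ) / v) * (occ A N + R * (exits A N + 1)) ≤
            σ * (occ A N + R * (exits A N + 1)) :=
          mul_le_mul_of_nonneg_right hσB (by positivity)
        have h4 : (occ (A.filter (· < R)) N : ℝ) ≤ σ * occ A N +
            (σ * R + 1 + Real.log R) * (exits A N + 1) := by
          linarith [h1, h3]
        have h5 : (σ * R + 1 + Real.log R) * ((exits A N : ℝ) + 1) ≤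
            (σ * R + 1 + Real.log R) * ((A.card : ℝ) * N / Z +
              (∑ v ∈ (range (Z + 1)).filter (fun v => v ∉ A), (cnt v N + 1) : ℕ) + 1) :=
          mul_le_mul_of_nonneg_left (by linarith) (by positivity)
        rw [div_le_iff₀ hN']
        have h6 : ((∑ v ∈ (range (Z + 1)).filter (fun v => v ∉ A), (cnt v N + 1) : ℕ) : ℝ) =
            (∑ v ∈ (range (Z + 1)).filter (fun v => v ∉ A), ((cnt v N : ℝ) / N + 1 / N)) * N := by
          push_cast
          rw [Finset.sum_mul]
          apply Finset.sum_congr rfl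
          intro v _
          field_simp
        rw [h6] at h5
        have h7 : (σ * ((occ A N : ℝ) / N) + (σ * R + 1 + Real.log R) *
          ((A.card : ℝ) / Z + ∑ v ∈ (range (Z + 1)).filter (fun v => v ∉ A),
            ((cnt v N : ℝ) / N + 1 / N) + 1 / N)) * N =
            σ * occ A N + (σ * R + 1 + Real.log R) * ((A.card : ℝ) * N / Z +
              (∑ v ∈ (range (Z + 1)).filter (fun v => v ∉ A), ((cnt v N : ℝ) / N + 1 / N)) * N
                + 1) := by
          generalize (∑ v ∈ (range (Z + 1)).filter (fun v => v ∉ A),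
            ((cnt v N : ℝ) / N + 1 / N)) = S
          field_simp
        rw [h7]
        linarith
    -- pass to the limit
    have hlim : Tendsto (fun N : ℕ => σ * ((occ A N : ℝ) / N) + (σ * R + 1 + Real.log R) *
          ((A.card : ℝ) / Z + ∑ v ∈ (range (Z + 1)).filter (fun v => v ∉ A),
            ((cnt v N : ℝ) / N + 1 / N) + 1 / N)) U
        (𝓝 (σ * (∑ v ∈ A, p v) + (σ * R + 1 + Real.log R) *
          ((A.card : ℝ) / Z + ∑ v ∈ (range (Z + 1)).filter (fun v => v ∉ A), (p v + 0) + 0))) := by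
      apply Tendsto.add
      · exact (hpsum A).const_mul _
      · apply Tendsto.const_mul
        apply Tendsto.add _ hinv
        apply Tendsto.add tendsto_const_nhds
        exact tendsto_finsetSum _ (fun v _ => (hp v).add hinv)
    have h1 := le_of_tendsto_of_tendsto' (hpsum (A.filter (· < R))) hlim hfin
    rw [hBsum] at h1
    have h2 : ∑ v ∈ (range (Z + 1)).filter (fun v => v ∉ A), (p v + 0) + 0 ≤
        s - ∑ v ∈ range (Y + 1), p v := by
      simp only [add_zero]
      rw [← hAsum]
      have h3 : Disjoint ((range (Z + 1)).filter (fun v => v ∉ A)) A := by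
        rw [Finset.disjoint_left]
        intro v hv
        exact (mem_filter.mp hv).2
      have h4 := hple' ((range (Z + 1)).filter (fun v => v ∉ A) ∪ A)
      rw [Finset.sum_union h3] at h4
      linarith
    have h3 : σ * (∑ v ∈ A, p v) ≤ σ * s := mul_le_mul_of_nonneg_left (hple' A) hσ0
    have h4 : (σ * R + 1 + Real.log R) *
          ((A.card : ℝ) / Z + ∑ v ∈ (range (Z + 1)).filter (fun v => v ∉ A), (p v + 0) + 0) ≤
        (σ * R + 1 + Real.log R) * ((A.card : ℝ) / Z + (s - ∑ v ∈ range (Y + 1), p v)) :=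
      mul_le_mul_of_nonneg_left (by linarith) (by positivity)
    linarith
  -- let `Z → ∞`, `Y → ∞`, `R → ∞`
  have hlimY : Tendsto (fun Y : ℕ => s - ∑ v ∈ range (Y + 1), p v) atTop (𝓝 0) := by
    have h1 := hpS.hasSum.tendsto_sum_nat
    have h2 := (h1.comp (tendsto_add_atTop_nat 1)).const_sub s
    rw [← hsdef, sub_self] at h2
    exact h2
  have step1 : ∀ R Y : ℕ, 1 ≤ R → R ≤ Y →
      ∑ v ∈ range R, p v ≤ σ * s + (σ * R + 1 + Real.log R) *
        (0 + (s - ∑ v ∈ range (Y + 1), p v)) := by
    intro R Y hR hRY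
    have h1 : Tendsto (fun Z : ℕ => σ * s + (σ * R + 1 + Real.log R) *
        ((((range (Y + 1)).filter (· ∈ PosUpper)).card : ℝ) / Z +
          (s - ∑ v ∈ range (Y + 1), p v))) atTop
        (𝓝 (σ * s + (σ * R + 1 + Real.log R) * (0 + (s - ∑ v ∈ range (Y + 1), p v)))) := by
      apply Tendsto.const_add
      apply Tendsto.const_mul
      apply Tendsto.add_const
      exact tendsto_const_div_atTop_nhds_zero_nat _
    apply ge_of_tendsto h1
    filter_upwards [Filter.eventually_gt_atTop 0] with Z hZ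
    exact key R Y Z hR hRY hZ
  have step2 : ∀ R : ℕ, 1 ≤ R → ∑ v ∈ range R, p v ≤ σ * s := by
    intro R hR
    have h1 : Tendsto (fun Y : ℕ => σ * s + (σ * R + 1 + Real.log R) *
        (0 + (s - ∑ v ∈ range (Y + 1), p v))) atTop
        (𝓝 (σ * s + (σ * R + 1 + Real.log R) * (0 + 0))) := by
      apply Tendsto.const_add
      apply Tendsto.const_mul
      apply Tendsto.const_add
      exact hlimY
    have h2 : ∑ v ∈ range R, p v ≤ σ * s + (σ * R + 1 + Real.log R) * (0 + 0) := by
      apply ge_of_tendsto h1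
      filter_upwards [Filter.eventually_ge_atTop R] with Y hY
      exact step1 R Y hR hY
    linarith
  have step3 : s ≤ σ * s := by
    apply le_of_tendsto hpS.hasSum.tendsto_sum_nat
    filter_upwards [Filter.eventually_ge_atTop 1] with R hR
    exact step2 R hR
  by_contra hc
  push Not at hc
  nlinarith

end Pool.Agent.Work.MP_10bfef_nt_recip
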