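import Pool.Agent.Work.MP_10bfef_nt_recip.Pot

/-!
# Van Eck's sequence: the values in a window have a large reciprocal sum
-/

namespace Pool.Agent.Work.MP_10bfef_nt_recip

open N913ddd84 Finset Pool.Agent.Work.MP_10bfef_nt_helper63 Filter Topology

/-- Number of occurrences of `v` among the first `N` terms. -/
def cnt (v N : ℕ) : ℕ := ((range N).filter (fun n => a n = v)).card

lemma zeros_density (ε : ℝ) (hε : 0 < ε) : ∃ N₀ : ℕ, ∀ N : ℕ, N₀ ≤ N →
    (cnt 0 N : ℝ) ≤ ε * N := by
  obtain ⟨N₀, hN₀⟩ := asymp_upper 1 one_pos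
  have e1 : ∀ᶠ N : ℕ in atTop, (1 : ℝ) ≤ Real.log N := tendsto_logN.eventually_ge_atTop 1
  have e3 : ∀ᶠ N : ℕ in atTop, (Real.log (Real.log N) + 1) / Real.log N < ε / 2 :=
    (tendsto_log_add_div.comp tendsto_logN).eventually_lt_const (by positivity)
  obtain ⟨N₁, hN₁⟩ := eventually_atTop.mp (e1.and e3)
  refine ⟨max N₀ N₁, fun N hN => ?_⟩
  obtain ⟨h1, h3⟩ := hN₁ N (by omega)
  have key : ((((Ico 0 (0 + N)).filter (fun n => a (n + 1) = 0)).card : ℝ)) + 1 ≤
      (1 + 1) * N * Real.log (Real.log N) / Real.log N :=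
    hN₀ N (by omega) _ ((log_factorial_ge _).trans (zeros_ineq 0 N))
  have h2 : (range N).filter (fun n => a n = 0) ⊆
      insert 0 (((Ico 0 (0 + N)).filter (fun n => a (n + 1) = 0)).image (· + 1)) := by
    intro n hn
    rw [Finset.mem_filter, Finset.mem_range] at hn
    rw [Finset.mem_insert, Finset.mem_image]
    rcases Nat.eq_zero_or_pos n with h | h
    · exact Or.inl h
    · right
      refine ⟨n - 1, ?_, by omega⟩
      rw [Finset.mem_filter, Finset.mem_Ico]
      refine ⟨by omega, ?_⟩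
      rw [Nat.sub_add_cancel (by omega)]
      exact hn.2
  have h4 := (Finset.card_le_card h2).trans (Finset.card_insert_le _ _)
  have h5 := Finset.card_image_le
    (s := (Ico 0 (0 + N)).filter (fun n => a (n + 1) = 0)) (f := (· + 1))
  have h6 : (cnt 0 N : ℝ) ≤ (((Ico 0 (0 + N)).filter (fun n => a (n + 1) = 0)).card : ℝ) + 1 := by
    unfold cnt
    exact_mod_cast h4.trans (Nat.add_le_add_right h5 1)
  have hL : 0 < Real.log N := by linarith
  have hN0 : (0 : ℝ) ≤ N := by positivity
  have h7 : (1 + 1) * (N : ℝ) * Real.log (Real.log N) / Real.log N ≤ ε * N := by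
    rw [div_lt_iff₀ hL] at h3
    rw [div_le_iff₀ hL]
    nlinarith
  linarith

/-- Windows: the sum of the reciprocals of the positive values among `a M, ..., a (N-1)`. -/
theorem window_recip (ε : ℝ) (hε : 0 < ε) : ∃ N₀ : ℕ, ∀ N : ℕ, N₀ ≤ N → ∀ M ≤ N,
    1 - (M : ℝ) / N - ε ≤ ∑ v ∈ ((Ico M N).image a).erase 0, (1 : ℝ) / v := by
  set C : ℝ := max 1 (4 / ε) with hC
  have hC1 : 1 ≤ C := le_max_left _ _
  have hC0 : 0 < C := by linarith
  have hlC : 0 ≤ Real.log C := Real.log_nonneg hC1
  obtain ⟨N₀, hN₀⟩ := zeros_density (ε / 4 / (1 + Real.log C)) (by positivity)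
  have e3 : ∀ᶠ N : ℕ in atTop, (Real.log N + 1) / N < ε / 4 :=
    (tendsto_log_add_div.comp tendsto_natCast_atTop_atTop).eventually_lt_const (by positivity)
  obtain ⟨N₁, hN₁⟩ := eventually_atTop.mp e3
  refine ⟨max (max N₀ N₁) 1, fun N hN M hM => ?_⟩
  have hNpos : (0 : ℝ) < N := by
    have : 0 < N := by omega
    exact_mod_cast this
  have h1 := hN₀ N (by omega)
  have h2 := hN₁ N (by omega)
  rw [div_lt_iff₀ hNpos] at h2
  classical
  -- the pointwise inequality
  have hpt : ∀ n ∈ Ico M N, F 1 (a (n + 1)) - F 1 (a n) ≤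
      (a (n + 1) : ℝ) * (if a n = 0 then 1 / C else 1 / (a n : ℝ)) +
        (if a n = 0 then 1 + Real.log C else 0) - 1 := by
    intro n _
    by_cases h0 : a n = 0
    · rw [if_pos h0, if_pos h0, h0, F_zero]
      rcases Nat.eq_zero_or_pos (a (n + 1)) with h3 | h3
      · rw [h3, F_zero]
        simp
        exact hlC
      · have h4 : (0 : ℝ) < a (n + 1) := by exact_mod_cast h3
        rw [F_pos one_pos (by exact_mod_cast h3), div_one]
        have h5 := Real.log_le_sub_one_of_pos (x := (a (n + 1) : ℝ) / C) (by positivity)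
        rw [Real.log_div h4.ne' hC0.ne'] at h5
        rw [div_eq_mul_one_div] at h5
        linarith
    · rw [if_neg h0, if_neg h0]
      have h3 : (1 : ℝ) ≤ a n := by exact_mod_cast Nat.one_le_iff_ne_zero.mpr h0
      have h4 := pot_ineq (X := 1) one_pos (a (n + 1)) (a n)
      rw [min_eq_left (F_ge one_pos h3), max_eq_left h3, div_eq_mul_one_div] at h4
      linarith
  have hsum := Finset.sum_le_sum hpt
  rw [telescope (fun n => F 1 (a n)) M N hM, Finset.sum_sub_distrib, Finset.sum_add_distrib] at hsum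
  have hw := weighted_gaps (fun v => if v = 0 then 1 / C else 1 / (v : ℝ)) (fun v => by
    show (0 : ℝ) ≤ if v = 0 then 1 / C else 1 / (v : ℝ)
    split_ifs <;> positivity) M N
  have hsplit : ∑ v ∈ (Ico M N).image a, (if v = 0 then 1 / C else 1 / (v : ℝ)) ≤
      1 / C + ∑ v ∈ ((Ico M N).image a).erase 0, (1 : ℝ) / v := by
    have h3 : ∑ v ∈ ((Ico M N).image a).erase 0, (1 : ℝ) / v =
        ∑ v ∈ ((Ico M N).image a).erase 0, (if v = 0 then 1 / C else 1 / (v : ℝ)) := by
      apply Finset.sum_congr rfl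
      intro v hv
      rw [if_neg (Finset.ne_of_mem_erase hv)]
    rw [h3]
    by_cases h0 : 0 ∈ (Ico M N).image a
    · rw [← Finset.add_sum_erase _ _ h0]
      simp
    · rw [Finset.erase_eq_of_notMem h0]
      have : 0 < 1 / C := by positivity
      linarith
  have hz : ∑ n ∈ Ico M N, (if a n = 0 then 1 + Real.log C else 0) ≤
      (1 + Real.log C) * cnt 0 N := by
    rw [← Finset.sum_filter, Finset.sum_const, nsmul_eq_mul, mul_comm]
    apply mul_le_mul_of_nonneg_left _ (by positivity)
    have : ((Ico M N).filter (fun n => a n = 0)).card ≤ cnt 0 N := by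
      apply Finset.card_le_card
      apply Finset.filter_subset_filter
      intro x hx
      rw [Finset.mem_Ico] at hx
      exact Finset.mem_range.mpr hx.2
    exact_mod_cast this
  have hone : ∑ n ∈ Ico M N, (1 : ℝ) = N - M := by
    rw [Finset.sum_const, Nat.card_Ico, nsmul_eq_mul, mul_one, Nat.cast_sub hM]
  have hFM : F 1 (a M) ≤ 1 + Real.log N := by
    rcases Nat.eq_zero_or_pos (a M) with h3 | h3
    · rw [h3, F_zero]
      have := Real.log_natCast_nonneg N
      linarith
    · rw [F_pos one_pos (by exact_mod_cast h3), div_one]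
      have h4 : a M ≤ N := by
        rcases M with _ | M
        · have : a 0 = 0 := rfl
          omega
        · have := a_le M
          omega
      have h5 : Real.log (a M) ≤ Real.log N :=
        Real.log_le_log (by exact_mod_cast h3) (by exact_mod_cast h4)
      linarith
  have hFN := F_nonneg 1 (a N)
  have hz2 : (1 + Real.log C) * cnt 0 N ≤ ε / 4 * N := by
    calc (1 + Real.log C) * cnt 0 N ≤ (1 + Real.log C) * (ε / 4 / (1 + Real.log C) * N) :=
          mul_le_mul_of_nonneg_left h1 (by positivity)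
      _ = ε / 4 * N := by
          have : 1 + Real.log C ≠ 0 := by positivity
          field_simp
  have hCe : 1 / C ≤ ε / 4 := by
    rw [div_le_iff₀ hC0]
    have : 4 / ε ≤ C := le_max_right _ _
    rw [div_le_iff₀ hε] at this
    linarith
  have hCe2 : (N : ℝ) * (1 / C) ≤ N * (ε / 4) := mul_le_mul_of_nonneg_left hCe hNpos.le
  have hfin : (N : ℝ) - M - ε * N ≤ N * ∑ v ∈ ((Ico M N).image a).erase 0, (1 : ℝ) / v := by
    have h6 := mul_le_mul_of_nonneg_left hsplit hNpos.le
    rw [hone] at hsum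
    rw [mul_add] at h6
    have h8 : 0 ≤ ε * N := by positivity
    linarith
  have h7 : 1 - (M : ℝ) / N - ε = ((N : ℝ) - M - ε * N) / N := by
    field_simp
  rw [h7, div_le_iff₀ hNpos]
  linarith

end Pool.Agent.Work.MP_10bfef_nt_recip
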